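import Pool.Agent.K.MP_66e591_ag.C8

/-! Fano manifolds of small codimension with nef tangent bundle. -/

namespace Pool.Agent.Results.MP_66e591_ag.Fano
open Pool.Agent.HCF Pool.Agent.NEF

/-- Let `X ⊆ ℙ^(n+c)` be a Fano manifold of codimension `c` and dimension `n ≥ 1000 c` (or
`n ≥ c (2^(c-1) + 1)^2`) with nef tangent bundle.  Then `X` is a linear space or a quadric in a
linear space, and it has a cellular decomposition. -/
theorem result (n c : ℕ) (I : Ideal (MvPolynomial (Fin (n + 1 + c)) ℂ)) (hX : IsManifold I c)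
    (hF : IsFano I c) (hN : TangentNef I)
    (hn : 1000 * c ≤ n ∨ c * (2 ^ (c - 1) + 1) ^ 2 ≤ n) :
    (∃ (f : Fin c → MvPolynomial (Fin (n + 1 + c)) ℂ) (d : Fin c → ℕ),
      (∀ i, (f i).IsHomogeneous (d i)) ∧ I = Ideal.span (Set.range f) ∧
        (∀ i, d i = 1 ∨ d i = 2) ∧ ∀ i j, d i = 2 → d j = 2 → i = j) ∧ HasCells (cone I) :=
  main_linear hX rfl hN hF hn

end Pool.Agent.Results.MP_66e591_ag.Fano
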