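import Pool.Agent.K.MP_66e591_ag.C9

/-! Manifolds of large index with nef tangent bundle, in any codimension. -/

namespace Pool.Agent.Results.MP_66e591_ag.LargeIndex
open Pool.Agent.HCF Pool.Agent.NEF

/-- Let `X ⊆ ℙ^(n+c)` be a nondegenerate manifold of dimension `n ≥ 1` with nef tangent bundle
and `K_X = b H`, such that the lines of `X` through some point span the tangent space.  If
`- 4 b ≥ 3 n + 5`, then `X` is the projective space or a quadric hypersurface, and it has a
cellular decomposition. -/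
theorem result (n c : ℕ) (b : ℤ) (I : Ideal (MvPolynomial (Fin (n + 1 + c)) ℂ))
    (hX : IsManifold I c) (hN : TangentNef I) (hK : CanonicalIs I c b)
    (hnd : ∀ η : Fin (n + 1 + c) → ℂ, (∀ x ∈ cone I, ∑ j, η j * x j = 0) → η = 0)
    (hL : ∃ x ∈ cone I, ∀ v ∈ tang I x, v ∈ Submodule.span ℂ
      {y | ∀ s t : ℂ, ∀ f ∈ I, MvPolynomial.eval (s • x + t • y) f = 0})
    (hn : 1 ≤ n) (hi : 3 * (n : ℤ) + 5 ≤ -4 * b) :
    c ≤ 1 ∧ (∃ f : Fin c → MvPolynomial (Fin (n + 1 + c)) ℂ, (∀ i, (f i).IsHomogeneous 2) ∧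
      I = Ideal.span (Set.range f)) ∧ HasCells (cone I) :=
  main_index' hX rfl hN hK hnd hL hn (by omega)

end Pool.Agent.Results.MP_66e591_ag.LargeIndex
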