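import Pool.Agent.K.MP_66e591_ag.C10

/-! Manifolds of small codimension with nef tangent bundle, covered by lines. -/

namespace Pool.Agent.Results.MP_66e591_ag.Lines
open Pool.Agent.HCF Pool.Agent.NEF

/-- Let `X ⊆ ℙ^(n+c)` be a manifold of dimension `n` and codimension `c` with nef tangent bundle
and `K_X = b H`, such that every point of `X` lies on a line of `X`, and `n ≥ 8 c`.  Then `X` is a
linear space or a quadric in a linear space, and it has a cellular decomposition. -/
theorem result (n c : ℕ) (b : ℤ) (I : Ideal (MvPolynomial (Fin (n + 1 + c)) ℂ))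
    (hX : IsManifold I c) (hN : TangentNef I) (hK : CanonicalIs I c b)
    (hL : ∀ x ∈ cone I, ∃ y, LinearIndependent ℂ ![x, y] ∧
      ∀ s t : ℂ, ∀ f ∈ I, MvPolynomial.eval (s • x + t • y) f = 0)
    (hn : 8 * c ≤ n) :
    (∃ (f : Fin c → MvPolynomial (Fin (n + 1 + c)) ℂ) (d : Fin c → ℕ),
      (∀ i, (f i).IsHomogeneous (d i)) ∧ I = Ideal.span (Set.range f) ∧
        (∀ i, d i = 1 ∨ d i = 2) ∧ ∀ i j, d i = 2 → d j = 2 → i = j) ∧ HasCells (cone I) :=
  main_lines hX rfl hN hK hL hn

end Pool.Agent.Results.MP_66e591_ag.Lines
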